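import Pool.Agent.Q70.MoE

/-!
# Moral auctions with independent values never beat truthful ones

The profiles, mechanisms, `α`-moral mechanisms and the revenue are defined in
`Pool.Agent.Q70.MoA`.
-/

set_option autoImplicit false

namespace Pool.Agent.Results.MP_e3b71d_lc.MoralNeverBeatsTruthful

open Finset Q70.Mo

/-- `F i x` is the probability that the value of player `i` is `x ε`, and all the values have positive
probability. -/
structure IsDistribution {n K : ℕ} (F : Fin n → Fin (K + 1) → ℝ) : Prop where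
  pos : ∀ i x, 0 < F i x
  sum_eq : ∀ i, ∑ x, F i x = 1

/-- The virtual value `x - ε (1 - Pr[v ≤ x]) / Pr[v = x]`, `ε = 1 / K`. -/
noncomputable def virtualValue {K : ℕ} (f : Fin (K + 1) → ℝ) (x : Fin (K + 1)) : ℝ :=
  val x - 1 / (K : ℝ) * ((1 - ∑ y ∈ univ.filter (fun y => y ≤ x), f y) / f x)

/-- The distribution is regular: the virtual value is nondecreasing. -/
def Regular {K : ℕ} (f : Fin (K + 1) → ℝ) : Prop := Monotone (virtualValue f)

/-- The question Q1: there are `n`, `ε = 1 / K`, regular distributions and `α ∈ (0, 1]` with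
`R_T < R_α`.  (`R F 0 = R_T` is the supremum over the truthful mechanisms.) -/
def Q1 : Prop := ∃ (n K : ℕ) (F : Fin n → Fin (K + 1) → ℝ) (α : ℝ), 0 < K ∧ IsDistribution F ∧
  (∀ i, Regular (F i)) ∧ 0 < α ∧ α ≤ 1 ∧ R F 0 < R F α

/-- The question Q2: the same without regularity. -/
def Q2 : Prop := ∃ (n K : ℕ) (F : Fin n → Fin (K + 1) → ℝ) (α : ℝ), 0 < K ∧ IsDistribution F ∧
  0 < α ∧ α ≤ 1 ∧ R F 0 < R F α

/-- **Moral mechanisms have no larger revenue than truthful ones.**  For all `n`, `ε = 1 / K` and all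
distributions with full support there is one truthful mechanism `M₀` (no player ever gains by a
false bid), the revenue of which is the largest revenue of an `α`-moral mechanism, for every
`α ∈ [0, 1]`.  So `R_α = R_T` for all `α ∈ [0, 1]`, and the answer to Q1 and to Q2 is no. -/
theorem result :
    ¬ Q1 ∧ ¬ Q2 ∧
    ∀ (n K : ℕ) (F : Fin n → Fin (K + 1) → ℝ), 0 < K → IsDistribution F →
      (∃ M₀ : Mech n K, (∀ v i x, M₀.gain v i x ≤ 0) ∧
        ∀ α : ℝ, 0 ≤ α → α ≤ 1 →
          IsGreatest {r : ℝ | ∃ M : Mech n K, M.IsMoral α ∧ r = rev F M} (rev F M₀)) ∧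
      ∀ α : ℝ, 0 ≤ α → α ≤ 1 → R F α = R F 0 := by
  refine ⟨?_, ?_, ?_⟩
  · rintro ⟨n, K, F, α, _, hF, _, h0, h1, h⟩
    rw [R_eq hF.pos hF.sum_eq h0.le h1] at h
    exact lt_irrefl _ h
  · rintro ⟨n, K, F, α, _, hF, h0, h1, h⟩
    rw [R_eq hF.pos hF.sum_eq h0.le h1] at h
    exact lt_irrefl _ h
  · intro n K F _ hF
    refine ⟨?_, fun α h0 h1 => R_eq hF.pos hF.sum_eq h0 h1⟩
    obtain ⟨M₀, hM₀, hmax⟩ := exists_truthful hF.pos hF.sum_eq
    refine ⟨M₀, fun v i x => ?_, fun α h0 h1 => ⟨⟨M₀, IsMoral.mono hM₀ le_rfl h0, rfl⟩, ?_⟩⟩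
    · by_contra hne
      push Not at hne
      have := hM₀ v i x hne
      rw [zero_mul] at this
      linarith
    · rintro r ⟨M, hM, rfl⟩
      exact hmax M α h0 h1 hM

end Pool.Agent.Results.MP_e3b71d_lc.MoralNeverBeatsTruthful
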